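import Mathlib

namespace Pool.Agent.H.MP_be5e04_al
open Finset

variable {I K J : Type} [Fintype I] [DecidableEq I] [Fintype K] [DecidableEq K] [DecidableEq J]

/-- assignments missing all blocks of a family -/
def Miss (B : J → Finset I) (tg : J → I → K) (s : Finset J) : Finset (I → K) :=
  univ.filter fun r => ∀ j ∈ s, ¬ ∀ x ∈ B j, r x = tg j x

theorem miss_step [Nonempty K] (B : J → Finset I) (tg : J → I → K) (m : ℕ) (s : Finset J) (j : J)
    (hj : (B j).card ≤ m) (hd : ∀ j' ∈ s, Disjoint (B j') (B j)) :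
    ((Miss B tg (insert j s)).card : ℝ) ≤
      (1 - 1 / (Fintype.card K : ℝ) ^ m) * (Miss B tg s).card := by
  classical
  set A := Miss B tg s with hA
  set A1 := A.filter (fun r => ∀ x ∈ B j, r x = tg j x) with hA1
  have h1 : Miss B tg (insert j s) = A.filter (fun r => ¬ ∀ x ∈ B j, r x = tg j x) := by
    ext r
    simp only [Miss, hA, mem_filter, mem_univ, true_and, mem_insert, forall_eq_or_imp]
    tauto
  have h2 : A1.card + (Miss B tg (insert j s)).card = A.card := by
    rw [h1, hA1]; exact card_filter_add_card_filter_not _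
  have hk : 0 < Fintype.card K := Fintype.card_pos
  have h3 : A.card ≤ Fintype.card K ^ m * A1.card := by
    apply card_le_mul_card_image_of_maps_to
      (f := fun r : I → K => fun x => if x ∈ B j then tg j x else r x)
    · intro r hr
      simp only [hA1, hA, Miss, mem_filter, mem_univ, true_and] at hr ⊢
      refine ⟨fun j' hj' h => hr j' hj' fun x hx => ?_, fun x hx => by simp [hx]⟩
      have := h x hx
      rwa [if_neg (Finset.disjoint_left.1 (hd j' hj') hx)] at this
    · intro b _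
      calc _ ≤ (univ : Finset (B j → K)).card := by
            apply card_le_card_of_injOn (fun r => fun x : B j => r x.1)
            · intro r _; simp
            · intro r hr r' hr' h
              simp only [coe_filter, Set.mem_setOf_eq] at hr hr'
              funext x
              by_cases hx : x ∈ B j
              · exact congrFun h ⟨x, hx⟩
              · have e1 := congrFun hr.2 x
                have e2 := congrFun hr'.2 x
                simp only [if_neg hx] at e1 e2
                rw [e1, e2]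
        _ = Fintype.card K ^ (B j).card := by simp
        _ ≤ _ := Nat.pow_le_pow_right hk hj
  have hk' : (0 : ℝ) < (Fintype.card K : ℝ) ^ m := by positivity
  have h2' : (A1.card : ℝ) + (Miss B tg (insert j s)).card = A.card := by exact_mod_cast h2
  have h3' : (A.card : ℝ) ≤ (Fintype.card K : ℝ) ^ m * A1.card := by exact_mod_cast h3
  have h4 : 1 / (Fintype.card K : ℝ) ^ m * A.card ≤ A1.card := by
    rw [one_div, inv_mul_le_iff₀ hk']; exact h3'
  linarith [sub_mul (1 : ℝ) (1 / (Fintype.card K : ℝ) ^ m) (A.card : ℝ)]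

theorem theta_nonneg [Nonempty K] (m : ℕ) : (0 : ℝ) ≤ 1 - 1 / (Fintype.card K : ℝ) ^ m := by
  have hk : (1 : ℝ) ≤ (Fintype.card K : ℝ) := by exact_mod_cast Fintype.card_pos
  have : (1 : ℝ) ≤ (Fintype.card K : ℝ) ^ m := one_le_pow₀ hk
  rw [sub_nonneg, div_le_one (by linarith)]; exact this

theorem miss_le [Nonempty K] (B : J → Finset I) (tg : J → I → K) (m D : ℕ) (hD0 : 0 < D)
    (s : Finset J) (hB : ∀ j ∈ s, (B j).card ≤ m)
    (hD : ∀ j ∈ s, (s.filter fun j' => ¬ Disjoint (B j) (B j')).card ≤ D) (N : ℕ)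
    (hN : N * D ≤ s.card) :
    ∃ u ⊆ s, u.card ≤ N ∧ ((Miss B tg u).card : ℝ) ≤
      (1 - 1 / (Fintype.card K : ℝ) ^ m) ^ N * Fintype.card (I → K) := by
  classical
  induction N with
  | zero =>
    refine ⟨∅, empty_subset _, le_rfl, ?_⟩
    simp only [pow_zero, one_mul]
    exact_mod_cast card_le_univ _
  | succ N ih =>
    obtain ⟨u, hu, hc, hm⟩ := ih (by nlinarith)
    set C := u.biUnion (fun j => s.filter fun j' => ¬ Disjoint (B j) (B j')) with hC
    have hCc : C.card ≤ N * D := by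
      calc C.card ≤ u.card * D := card_biUnion_le_card_mul _ _ _ fun j hj => hD j (hu hj)
        _ ≤ N * D := Nat.mul_le_mul_right _ hc
    obtain ⟨j, hjs, hjC⟩ := exists_mem_notMem_of_card_lt_card (s := C) (t := s) (by nlinarith)
    refine ⟨insert j u, insert_subset hjs hu, (card_insert_le _ _).trans (by omega), ?_⟩
    have hd : ∀ j' ∈ u, Disjoint (B j') (B j) := by
      intro j' hj'
      by_contra h
      exact hjC (mem_biUnion.2 ⟨j', hj', mem_filter.2 ⟨hjs, h⟩⟩)
    calc _ ≤ _ := miss_step B tg m u j (hB j hjs) hd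
      _ ≤ (1 - 1 / (Fintype.card K : ℝ) ^ m) * ((1 - 1 / (Fintype.card K : ℝ) ^ m) ^ N *
          Fintype.card (I → K)) := mul_le_mul_of_nonneg_left hm (theta_nonneg m)
      _ = _ := by ring

theorem exists_match [Nonempty K] {T : Type} (Ts : Finset T) (s : T → Finset J)
    (B : T → J → Finset I) (tg : T → J → I → K) (m D N : ℕ) (hD0 : 0 < D)
    (hB : ∀ τ ∈ Ts, ∀ j ∈ s τ, (B τ j).card ≤ m)
    (hD : ∀ τ ∈ Ts, ∀ j ∈ s τ, ((s τ).filter fun j' => ¬ Disjoint (B τ j) (B τ j')).card ≤ D)
    (hT : (Ts.card : ℝ) * (1 - 1 / (Fintype.card K : ℝ) ^ m) ^ N < 1) :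
    ∃ r : I → K, ∀ τ ∈ Ts, N * D ≤ (s τ).card → ∃ j ∈ s τ, ∀ x ∈ B τ j, r x = tg τ j x := by
  classical
  set Ts' := Ts.filter (fun τ => N * D ≤ (s τ).card) with hTs'
  set U := Ts'.biUnion (fun τ => Miss (B τ) (tg τ) (s τ)) with hU
  have hpos : (0 : ℝ) < Fintype.card (I → K) := by exact_mod_cast Fintype.card_pos
  have h1 : ∀ τ ∈ Ts', ((Miss (B τ) (tg τ) (s τ)).card : ℝ) ≤
      (1 - 1 / (Fintype.card K : ℝ) ^ m) ^ N * Fintype.card (I → K) := by
    intro τ hτ
    obtain ⟨hτ1, hτ2⟩ := mem_filter.1 hτ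
    obtain ⟨u, hu, -, hm⟩ := miss_le (B τ) (tg τ) m D hD0 (s τ) (hB τ hτ1) (hD τ hτ1) N hτ2
    refine le_trans ?_ hm
    have : Miss (B τ) (tg τ) (s τ) ⊆ Miss (B τ) (tg τ) u := by
      intro r hr
      simp only [Miss, mem_filter, mem_univ, true_and] at hr ⊢
      exact fun j hj => hr j (hu hj)
    exact_mod_cast card_le_card this
  have h2 : (U.card : ℝ) < Fintype.card (I → K) := by
    calc (U.card : ℝ) ≤ ∑ τ ∈ Ts', ((Miss (B τ) (tg τ) (s τ)).card : ℝ) := by
          exact_mod_cast card_biUnion_le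
      _ ≤ Ts'.card • ((1 - 1 / (Fintype.card K : ℝ) ^ m) ^ N * Fintype.card (I → K)) :=
          sum_le_card_nsmul _ _ _ h1
      _ ≤ Ts.card * ((1 - 1 / (Fintype.card K : ℝ) ^ m) ^ N * Fintype.card (I → K)) := by
          rw [nsmul_eq_mul]
          apply mul_le_mul_of_nonneg_right
          · exact_mod_cast card_filter_le _ _
          · exact mul_nonneg (pow_nonneg (theta_nonneg m) _) hpos.le
      _ < _ := by rw [← mul_assoc]; nlinarith
  obtain ⟨r, -, hr⟩ := exists_mem_notMem_of_card_lt_card (s := U) (t := univ)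
    (by exact_mod_cast h2)
  refine ⟨r, fun τ hτ hN => ?_⟩
  by_contra h
  apply hr
  refine mem_biUnion.2 ⟨τ, mem_filter.2 ⟨hτ, hN⟩, ?_⟩
  simp only [Miss, mem_filter, mem_univ, true_and]
  exact fun j hj h' => h ⟨j, hj, h'⟩

end Pool.Agent.H.MP_be5e04_al
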