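import Mathlib

namespace Pool.Agent.H.MP_be5e04_al
open Finset

@[ext] structure H : Type where
  a : ℤ
  b : ℤ
  c : ℤ
deriving DecidableEq

namespace H
instance : Mul H := ⟨fun x y => ⟨x.a + y.a, x.b + y.b, x.c + y.c + x.a * y.b⟩⟩
instance : One H := ⟨⟨0, 0, 0⟩⟩
instance : Inv H := ⟨fun x => ⟨-x.a, -x.b, -x.c + x.a * x.b⟩⟩
@[simp] theorem mul_a (x y : H) : (x * y).a = x.a + y.a := rfl
@[simp] theorem mul_b (x y : H) : (x * y).b = x.b + y.b := rfl
@[simp] theorem mul_c (x y : H) : (x * y).c = x.c + y.c + x.a * y.b := rfl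
@[simp] theorem one_a : (1 : H).a = 0 := rfl
@[simp] theorem one_b : (1 : H).b = 0 := rfl
@[simp] theorem one_c : (1 : H).c = 0 := rfl
@[simp] theorem inv_a (x : H) : (x⁻¹).a = -x.a := rfl
@[simp] theorem inv_b (x : H) : (x⁻¹).b = -x.b := rfl
@[simp] theorem inv_c (x : H) : (x⁻¹).c = -x.c + x.a * x.b := rfl
instance : Group H := Group.ofLeftAxioms
  (fun x y z => by ext <;> simp <;> ring) (fun x => by ext <;> simp)
  (fun x => by ext <;> simp)
end H

/-- dilation -/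
def dil (L : ℤ) : H →* H where
  toFun x := ⟨L * x.a, L * x.b, L ^ 2 * x.c⟩
  map_one' := by ext <;> simp
  map_mul' x y := by ext <;> simp <;> ring

@[simp] theorem dil_a (L : ℤ) (x : H) : (dil L x).a = L * x.a := rfl
@[simp] theorem dil_b (L : ℤ) (x : H) : (dil L x).b = L * x.b := rfl
@[simp] theorem dil_c (L : ℤ) (x : H) : (dil L x).c = L ^ 2 * x.c := rfl

theorem dil_dil (M L : ℤ) (x : H) : dil M (dil L x) = dil (M * L) x := by
  ext <;> simp <;> ring

/-- homogeneous boxes -/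
def InB (R : ℤ) (x : H) : Prop := |x.a| ≤ R ∧ |x.b| ≤ R ∧ |x.c| ≤ R ^ 2

theorem InB.nonneg {R : ℤ} {x : H} (h : InB R x) : 0 ≤ R := (abs_nonneg _).trans h.1

theorem InB.mono {R S : ℤ} {x : H} (h : InB R x) (hRS : R ≤ S) : InB S x :=
  ⟨h.1.trans hRS, h.2.1.trans hRS, h.2.2.trans (pow_le_pow_left₀ h.nonneg hRS 2)⟩

theorem InB.mul {R S : ℤ} {x y : H} (hx : InB R x) (hy : InB S y) : InB (R + S) (x * y) := by
  have hR := hx.nonneg
  have hS := hy.nonneg
  refine ⟨(abs_add_le _ _).trans (add_le_add hx.1 hy.1),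
    (abs_add_le _ _).trans (add_le_add hx.2.1 hy.2.1), ?_⟩
  have h1 : |x.a * y.b| ≤ R * S := by
    rw [abs_mul]; exact mul_le_mul hx.1 hy.2.1 (abs_nonneg _) hR
  have h2 := abs_add_three x.c y.c (x.a * y.b)
  have := hx.2.2
  have := hy.2.2
  simp only [H.mul_c]
  nlinarith [mul_nonneg hR hS]

theorem InB.inv {R : ℤ} {x : H} (hx : InB R x) : InB (2 * R) x⁻¹ := by
  have hR := hx.nonneg
  refine ⟨by simp only [H.inv_a, abs_neg]; linarith [hx.1],
    by simp only [H.inv_b, abs_neg]; linarith [hx.2.1], ?_⟩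
  have h1 : |x.a * x.b| ≤ R * R := by
    rw [abs_mul]; exact mul_le_mul hx.1 hx.2.1 (abs_nonneg _) hR
  have h2 := abs_add_le (-x.c) (x.a * x.b)
  have := hx.2.2
  simp only [H.inv_c]
  rw [abs_neg] at h2
  nlinarith [mul_nonneg hR hR]

theorem InB.dil {R L : ℤ} {x : H} (hx : InB R x) (hL : 0 ≤ L) : InB (L * R) (dil L x) := by
  refine ⟨?_, ?_, ?_⟩
  · simp only [dil_a, abs_mul, abs_of_nonneg hL]; exact mul_le_mul_of_nonneg_left hx.1 hL
  · simp only [dil_b, abs_mul, abs_of_nonneg hL]; exact mul_le_mul_of_nonneg_left hx.2.1 hL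
  · simp only [dil_c, abs_mul, abs_of_nonneg (sq_nonneg L), mul_pow]
    exact mul_le_mul_of_nonneg_left hx.2.2 (sq_nonneg L)

theorem InB.of_dil {R L : ℤ} {x : H} (hL : 0 < L) (hx : InB (L * R) (MP_be5e04_al.dil L x)) :
    InB R x := by
  obtain ⟨h1, h2, h3⟩ := hx
  simp only [dil_a, dil_b, dil_c, abs_mul, abs_of_pos hL, abs_of_nonneg (sq_nonneg L),
    mul_pow] at h1 h2 h3
  exact ⟨le_of_mul_le_mul_left h1 hL, le_of_mul_le_mul_left h2 hL,
    le_of_mul_le_mul_left h3 (by positivity)⟩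

/-- the box as a finite set -/
noncomputable def box (R : ℤ) : Finset H :=
  ((Icc (-R) R) ×ˢ (Icc (-R) R) ×ˢ (Icc (-R ^ 2) (R ^ 2))).image fun p => ⟨p.1, p.2.1, p.2.2⟩

theorem mem_box {R : ℤ} {x : H} : x ∈ box R ↔ InB R x := by
  simp only [box, mem_image, mem_product, mem_Icc, InB, abs_le]
  constructor
  · rintro ⟨p, hp, rfl⟩; exact hp
  · intro h; exact ⟨(x.a, x.b, x.c), h, rfl⟩

theorem card_box (R : ℕ) (hR : 1 ≤ R) : (box R).card ≤ 27 * R ^ 4 := by
  refine card_image_le.trans ?_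
  simp only [card_product, Int.card_Icc]
  have h1 : ((R : ℤ) + 1 - -R).toNat ≤ 3 * R := by omega
  have h2 : ((R : ℤ) ^ 2 + 1 - -R ^ 2).toNat ≤ 3 * R ^ 2 := by
    have : 1 ≤ R ^ 2 := Nat.one_le_pow _ _ hR
    have e : (R : ℤ) ^ 2 = ((R ^ 2 : ℕ) : ℤ) := by push_cast; ring
    rw [e]; omega
  calc _ ≤ (3 * R) * ((3 * R) * (3 * R ^ 2)) := by gcongr
    _ = _ := by ring

/-- tile label for the lattice dilated by `L` -/
def lab (L : ℤ) (x : H) : H :=
  ⟨x.a / L, x.b / L, (x.c - (x.a % L) * L * (x.b / L)) / L ^ 2⟩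

theorem lab_mul (L : ℤ) (hL : 0 < L) (x h : H) : lab L (x * dil L h) = lab L x * h := by
  have e1 : (x.a + L * h.a) / L = x.a / L + h.a := Int.add_mul_ediv_left _ _ hL.ne'
  have e2 : (x.b + L * h.b) / L = x.b / L + h.b := Int.add_mul_ediv_left _ _ hL.ne'
  have e3 : (x.a + L * h.a) % L = x.a % L := Int.add_mul_emod_self_left _ _ _
  ext
  · simp [lab, e1]
  · simp [lab, e2]
  · simp only [lab, H.mul_a, H.mul_b, H.mul_c, dil_a, dil_b, dil_c, e2, e3]
    have e4 : x.a = x.a % L + L * (x.a / L) := (Int.emod_add_mul_ediv _ _).symm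
    have e5 : x.c + L ^ 2 * h.c + x.a * (L * h.b) - x.a % L * L * (x.b / L + h.b) =
        (x.c - x.a % L * L * (x.b / L)) + L ^ 2 * (h.c + x.a / L * h.b) := by
      nth_rewrite 1 [e4]; ring
    rw [e5, Int.add_mul_ediv_left _ _ (by positivity), add_assoc]

theorem lab_box (L : ℤ) (hL : 0 < L) (x : H) : InB L (x * (dil L (lab L x))⁻¹) := by
  have e4 : x.a = x.a % L + L * (x.a / L) := (Int.emod_add_mul_ediv _ _).symm
  have e5 : x.b = x.b % L + L * (x.b / L) := (Int.emod_add_mul_ediv _ _).symm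
  have hL2 : 0 < L ^ 2 := by positivity
  refine ⟨?_, ?_, ?_⟩
  · simp only [lab, H.mul_a, H.inv_a, dil_a]
    have := Int.emod_nonneg x.a hL.ne'
    have := Int.emod_lt_of_pos x.a hL
    rw [abs_le]; constructor <;> linarith
  · simp only [lab, H.mul_b, H.inv_b, dil_b]
    have := Int.emod_nonneg x.b hL.ne'
    have := Int.emod_lt_of_pos x.b hL
    rw [abs_le]; constructor <;> linarith
  · simp only [lab, H.mul_c, H.inv_c, H.inv_b, dil_a, dil_b, dil_c]
    set y := x.c - x.a % L * L * (x.b / L) with hy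
    have e6 : y = y % L ^ 2 + L ^ 2 * (y / L ^ 2) := (Int.emod_add_mul_ediv _ _).symm
    have := Int.emod_nonneg y hL2.ne'
    have := Int.emod_lt_of_pos y hL2
    have e7 : x.c + (-(L ^ 2 * (y / L ^ 2)) + L * (x.a / L) * (L * (x.b / L))) +
        x.a * -(L * (x.b / L)) = y % L ^ 2 := by
      have e8 : x.a * -(L * (x.b / L)) = (x.a % L + L * (x.a / L)) * -(L * (x.b / L)) := by
        rw [← e4]
      rw [e8]; linarith
    rw [e7, abs_le]; constructor <;> linarith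

end Pool.Agent.H.MP_be5e04_al
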