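import Pool.Agent.H.MP_be5e04_al.Step

namespace Pool.Agent.H.MP_be5e04_al
open Finset

attribute [local irreducible] box

noncomputable def tasks (R : ℤ) (m : ℕ) : Finset ((Fin m → H) × (Fin m → H) × Bool) :=
  Fintype.piFinset (fun _ => box R) ×ˢ Fintype.piFinset (fun _ => box R) ×ˢ univ

open Classical in
noncomputable def gd (D : Level) (L J : ℕ) {m : ℕ} (τ : (Fin m → H) × (Fin m → H) × Bool) :
    Finset ℕ :=
  (range J).filter fun j => (∀ i, lab L (D.κ (ff D j * τ.1 i)) = 1) ∧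
    (∀ i, ¬ Forced D L (τ.2.1 i) (D.κ (ff D j * τ.1 i))) ∧
    ∀ i i', D.κ (ff D j * τ.1 i) = D.κ (ff D j * τ.1 i') →
      (τ.1 i).a = (τ.1 i').a ∧ (τ.1 i).b = (τ.1 i').b

theorem mem_box_of_lab (L : ℤ) (hL : 0 < L) (x : H) (h : lab L x = 1) : x ∈ box L := by
  have := lab_box L hL x
  rw [h, map_one, inv_one, mul_one] at this
  exact mem_box.2 this

theorem exists_r (D : Level) (m N L J : ℕ) (R : ℤ) (hL : 0 < L)
    (hT : ((tasks R m).card : ℝ) * (1 - 1 / (D.P.card : ℝ) ^ m) ^ N < 1) :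
    ∃ r : H → H → Bool, (∀ x, r x ∈ D.P) ∧ ∀ τ ∈ tasks R m,
      N * (m * m * (box (6 * D.M)).card + 1) ≤ (gd D L J τ).card →
      ∃ j ∈ gd D L J τ, ∀ i, r (D.κ (ff D j * τ.1 i)) (ff D j * τ.1 i) = τ.2.2 := by
  classical
  have : Nonempty D.P := ⟨⟨k0 D 1 true, k0_mem _ _ _⟩⟩
  refine (exists_match (I := box (L : ℤ)) (K := D.P) (tasks R m) (gd D L J)
    (fun τ j => univ.filter fun x => ∃ i, x.1 = D.κ (ff D j * τ.1 i))
    (fun τ j x => if h : ∃ i, x.1 = D.κ (ff D j * τ.1 i) then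
      ⟨k0 D (ff D j * τ.1 h.choose) τ.2.2, k0_mem _ _ _⟩ else ⟨k0 D 1 true, k0_mem _ _ _⟩)
    m (m * m * (box (6 * D.M)).card + 1) N (Nat.succ_pos _) ?_ ?_ (by simpa using hT)).elim
    fun r hr => ?_
  rotate_right
  · refine ⟨fun x => if h : x ∈ box (L : ℤ) then (r ⟨x, h⟩).1 else k0 D 1 true, fun x => ?_,
      fun τ hτ hN => ?_⟩
    · beta_reduce
      split_ifs with h
      · exact (r ⟨x, h⟩).2
      · exact k0_mem _ _ _
    · obtain ⟨j, hj, h⟩ := hr τ hτ hN
      refine ⟨j, hj, fun i => ?_⟩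
      obtain ⟨-, h1, -, h3⟩ := mem_filter.1 hj
      have hx := mem_box_of_lab L (by exact_mod_cast hL) _ (h1 i)
      have hex : ∃ i', D.κ (ff D j * τ.1 i) = D.κ (ff D j * τ.1 i') := ⟨i, rfl⟩
      have h4 := h ⟨_, hx⟩ (mem_filter.2 ⟨mem_univ _, hex⟩)
      beta_reduce
      rw [dif_pos hx, h4, dif_pos hex]
      have h5 := h3 _ _ hex.choose_spec
      apply k0_eq
      constructor
      · simp only [H.mul_a, h5.1, sub_self, dvd_zero]
      · simp only [H.mul_b, h5.2, sub_self, dvd_zero]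
  · intro τ _ j _
    calc _ ≤ (univ : Finset (Fin m)).card := by
          apply card_le_card_of_forall_subsingleton'
            (fun (i : Fin m) (x : box (L : ℤ)) => x.1 = D.κ (ff D j * τ.1 i))
          · intro x hx
            obtain ⟨i, hi⟩ := (mem_filter.1 hx).2
            exact ⟨i, mem_univ _, hi⟩
          · intro i _ x hx y hy
            exact Subtype.ext (hx.2.trans hy.2.symm)
      _ = m := by simp
  · intro τ _ j _
    refine le_trans ?_ (Nat.le_succ _)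
    calc _ ≤ ((univ : Finset (Fin m × Fin m)).biUnion fun p => (range J).filter fun j' =>
            D.κ (ff D j' * τ.1 p.1) = D.κ (ff D j * τ.1 p.2)).card := by
          apply card_le_card
          intro j' hj'
          obtain ⟨h1, h2⟩ := mem_filter.1 hj'
          obtain ⟨x, hx, hx'⟩ := not_disjoint_iff.1 h2
          obtain ⟨i, hi⟩ := (mem_filter.1 hx).2
          obtain ⟨i', hi'⟩ := (mem_filter.1 hx').2
          exact mem_biUnion.2 ⟨(i', i), mem_univ _, mem_filter.2 ⟨(mem_filter.1 h1).1,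
            hi'.symm.trans hi⟩⟩
      _ ≤ (univ : Finset (Fin m × Fin m)).card * (box (6 * D.M)).card :=
          card_biUnion_le_card_mul _ _ _ fun p _ => by convert count_conf D J (τ.1 p.1) _
      _ = _ := by simp

open Classical in
theorem card_gd (D : Level) (L J : ℕ) (hJ : J ≤ D.M * L) {m : ℕ}
    (τ : (Fin m → H) × (Fin m → H) × Bool) :
    ((range J).filter fun j => ∀ i, lab L (D.κ (ff D j * τ.1 i)) = 1).card ≤
      (gd D L J τ).card + m * (box (6 * D.M)).card + m * m * (box (6 * D.M)).card := by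
  set U1 := (univ : Finset (Fin m)).biUnion fun i =>
    (range J).filter fun j => Forced D L (τ.2.1 i) (D.κ (ff D j * τ.1 i)) with hU1
  set U2 := ((univ : Finset (Fin m × Fin m)).filter fun p =>
    ¬ ((τ.1 p.1).a = (τ.1 p.2).a ∧ (τ.1 p.1).b = (τ.1 p.2).b)).biUnion fun p =>
    (range J).filter fun j => D.κ (ff D j * τ.1 p.1) = D.κ (ff D j * τ.1 p.2) with hU2
  have h1 : U1.card ≤ m * (box (6 * D.M)).card := by
    refine (card_biUnion_le_card_mul _ _ _ fun i _ => count_forced D L J hJ _ _).trans ?_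
    simp
  have h2 : U2.card ≤ m * m * (box (6 * D.M)).card := by
    refine (card_biUnion_le_card_mul _ _ (box (6 * D.M)).card fun p hp => by
      convert count_switch D J _ _ (mem_filter.1 hp).2).trans ?_
    refine Nat.mul_le_mul_right _ ((card_filter_le _ _).trans ?_)
    simp
  calc _ ≤ (gd D L J τ ∪ U1 ∪ U2).card := by
        apply card_le_card
        intro j hj
        obtain ⟨hj1, hj2⟩ := mem_filter.1 hj
        by_cases a1 : ∀ i, ¬ Forced D L (τ.2.1 i) (D.κ (ff D j * τ.1 i))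
        · by_cases a2 : ∀ i i', D.κ (ff D j * τ.1 i) = D.κ (ff D j * τ.1 i') →
              (τ.1 i).a = (τ.1 i').a ∧ (τ.1 i).b = (τ.1 i').b
          · exact mem_union_left _ (mem_union_left _ (mem_filter.2 ⟨hj1, hj2, a1, a2⟩))
          · simp only [not_forall] at a2
            obtain ⟨i, i', h, h'⟩ := a2
            exact mem_union_right _ (mem_biUnion.2 ⟨(i, i'), mem_filter.2 ⟨mem_univ _, h'⟩,
              mem_filter.2 ⟨hj1, h⟩⟩)
        · simp only [not_forall, not_not] at a1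
          obtain ⟨i, h⟩ := a1
          exact mem_union_left _ (mem_union_right _ (mem_biUnion.2 ⟨i, mem_univ _,
            mem_filter.2 ⟨hj1, h⟩⟩))
    _ ≤ (gd D L J τ).card + U1.card + U2.card :=
        (card_union_le _ _).trans (Nat.add_le_add_right (card_union_le _ _) _)
    _ ≤ _ := by omega

theorem card_tasks (R m : ℕ) (hR : 1 ≤ R) : (tasks R m).card ≤ 2 * (27 * R ^ 4) ^ (2 * m) := by
  simp only [tasks, card_product, Fintype.card_piFinset, prod_const, card_univ, Fintype.card_fin,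
    Fintype.card_bool]
  have := card_box R hR
  calc _ ≤ (27 * R ^ 4) ^ m * ((27 * R ^ 4) ^ m * 2) := by gcongr
    _ = _ := by ring

theorem exists_N (C k : ℕ) (θ : ℝ) (h0 : 0 ≤ θ) (h1 : θ < 1) :
    ∃ N : ℕ, 1 ≤ N ∧ (C : ℝ) * (N : ℝ) ^ k * θ ^ N < 1 := by
  have h := (tendsto_pow_const_mul_const_pow_of_abs_lt_one k
    (r := θ) (by rwa [abs_of_nonneg h0])).const_mul (C : ℝ)
  rw [mul_zero] at h
  obtain ⟨N, hN, hN'⟩ := ((h.eventually (gt_mem_nhds one_pos)).and
    (Filter.eventually_ge_atTop 1)).exists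
  exact ⟨N, hN', by rwa [mul_assoc]⟩

theorem step (D : Level) (m : ℕ) : ∃ D' : Level, D'.Adm ⊆ D.Adm ∧ ∃ F : Finset H,
    ∀ ξ ∈ D'.Adm, ∀ (t : Fin m → H) (ε : Bool), ∃ f ∈ F, ∀ i, ξ (f * t i) = ε := by
  classical
  obtain ⟨β, hβ⟩ : ∃ β, β = (box (6 * D.M)).card := ⟨_, rfl⟩
  obtain ⟨c, hc⟩ : ∃ c, c = (box 7).card := ⟨_, rfl⟩
  have hc1 : 1 ≤ c := hc ▸ card_pos.2 ⟨1, mem_box.2 ⟨by simp, by simp, by simp⟩⟩
  have hP : 1 ≤ D.P.card := card_pos.2 ⟨_, k0_mem D 1 true⟩
  have hP' : (1 : ℝ) ≤ (D.P.card : ℝ) ^ m := one_le_pow₀ (by exact_mod_cast hP)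
  obtain ⟨Δ, hΔ⟩ : ∃ Δ, Δ = m * m * β + 1 := ⟨_, rfl⟩
  have hΔ0 : 0 < Δ := by omega
  obtain ⟨E, hE⟩ : ∃ E, E = 4 * (D.M * (2 * (6 * D.M + 1) * (c ^ m * (3 * Δ)))) := ⟨_, rfl⟩
  obtain ⟨N, hN1, hN⟩ := exists_N (2 * (27 * E ^ 4) ^ (2 * m)) (8 * m)
    (1 - 1 / (D.P.card : ℝ) ^ m) (by rw [sub_nonneg, div_le_one (by linarith)]; exact hP')
    (by have : 0 < 1 / (D.P.card : ℝ) ^ m := by positivity
        linarith)
  obtain ⟨J, hJ⟩ : ∃ J, J = c ^ m * (3 * Δ * N) := ⟨_, rfl⟩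
  obtain ⟨L, hL⟩ : ∃ L, L = 2 * (6 * D.M + 1) * J := ⟨_, rfl⟩
  have hJ1 : 1 ≤ J := hJ ▸ Nat.mul_pos (Nat.pow_pos hc1) (by positivity)
  have hL2 : 2 ≤ L := by nlinarith
  have hM := D.hM
  have hLL : L ≤ D.M * L := Nat.le_mul_of_pos_left _ hM
  have hJL : (6 * D.M + 1) * J ≤ D.M * L := by nlinarith
  have hJL' : J ≤ D.M * L := by nlinarith
  obtain ⟨r, hr, hr'⟩ := exists_r D m N L J (4 * (D.M * L : ℕ)) (by omega) (by
    have h1 := card_tasks (4 * (D.M * L)) m (by omega)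
    have h2 : 4 * (D.M * L) = E * N := by rw [hE, hL, hJ]; ring
    have h3 : 2 * (27 * (E * N) ^ 4) ^ (2 * m) = 2 * (27 * E ^ 4) ^ (2 * m) * N ^ (8 * m) := by
      rw [mul_pow E, ← mul_assoc 27, mul_pow, ← pow_mul]; ring
    have h4 : ((4 * (D.M * L) : ℕ) : ℤ) = 4 * (D.M * L : ℕ) := by push_cast; ring
    rw [h4, h2, h3] at h1
    refine lt_of_le_of_lt (mul_le_mul_of_nonneg_right ?_ (pow_nonneg ?_ _)) hN
    · exact_mod_cast h1
    · rw [sub_nonneg, div_le_one (by linarith)]; exact hP')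
  set D' := next D L hL2 r hr with hD'
  have hM' : (D'.M : ℤ) = (D.M * L : ℕ) := rfl
  have hM0 : (0 : ℤ) < D'.M := by exact_mod_cast D'.hM
  have hff : ∀ j ∈ range J, InB D'.M (ff D j) := by
    intro j hj
    have hj' := mem_range.1 hj
    have : (6 * D.M + 1) * j ≤ D.M * L := le_trans (Nat.mul_le_mul_left _ hj'.le) hJL
    refine ⟨?_, ?_, by simp [ff]⟩
    · simp only [ff, hM']; rw [abs_of_nonneg (by positivity)]; exact_mod_cast hj'.le.trans hJL'
    · simp only [ff, hM']; rw [abs_of_nonneg (by positivity)]; exact_mod_cast this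
  refine ⟨D', next_adm D L hL2 r hr, (range J).image (ff D), fun ξ hξ t ε => ?_⟩
  obtain ⟨y, -, hy⟩ := exists_le_card_fiber_of_mul_le_card_of_maps_to (s := range J)
    (t := Fintype.piFinset fun _ : Fin m => box 7) (n := 3 * Δ * N)
    (f := fun j i => D'.κ (ff D j * t i) * (D'.κ (t i))⁻¹) (by
      intro j hj
      rw [Fintype.mem_piFinset]
      intro i
      set q := t i * (dil D'.M (D'.κ (t i)))⁻¹ with hq
      have e1 : D'.κ (ff D j * t i) * (D'.κ (t i))⁻¹ = D'.κ (ff D j * q) := by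
        rw [hq, ← mul_assoc, ← map_inv, D'.κ_mul]
      rw [e1, mem_box]
      apply InB.of_dil hM0
      have h1 := (D'.κ_box (ff D j * q)).inv.mul ((hff j hj).mul (D'.κ_box (t i)))
      rw [← hq] at h1
      have e2 : (ff D j * q * (dil D'.M (D'.κ (ff D j * q)))⁻¹)⁻¹ * (ff D j * q) =
          dil D'.M (D'.κ (ff D j * q)) := by group
      rw [e2] at h1
      exact h1.mono (by linarith))
    ⟨fun _ => 1, by
      rw [Fintype.mem_piFinset]; intro i; exact mem_box.2 ⟨by simp, by simp, by simp⟩⟩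
    (by simp [Fintype.card_piFinset, hJ, hc])
  choose v hv hv' using fun i => hξ (y i * D'.κ (t i))
  have hv2 : ∀ i, ∃ p ∈ box (4 * (D.M * L : ℕ)) ×ˢ (univ : Finset Bool), vnew D L r p = v i :=
    fun i => mem_image.1 (hv i)
  choose p hp hp' using hv2
  set t' : Fin m → H := fun i => t i * (dil D'.M (y i * D'.κ (t i)))⁻¹ with ht'
  have key : ∀ j i, D'.κ (ff D j * t' i) = 1 ↔
      D'.κ (ff D j * t i) * (D'.κ (t i))⁻¹ = y i := by
    intro j i
    rw [ht']; beta_reduce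
    rw [← mul_assoc, ← map_inv, D'.κ_mul, mul_inv_eq_one, mul_inv_eq_iff_eq_mul]
  have hfil : ((range J).filter fun j => ∀ i, lab L (D.κ (ff D j * t' i)) = 1) =
      (range J).filter fun j => (fun i => D'.κ (ff D j * t i) * (D'.κ (t i))⁻¹) = y := by
    apply filter_congr
    intro j _
    rw [funext_iff]
    exact forall_congr' fun i => key j i
  have hpos : 0 < 3 * Δ * N := by positivity
  obtain ⟨j₀, hj₀⟩ := card_pos.1 (lt_of_lt_of_le hpos hy)
  have hτ : (t', fun i => (p i).1, ε) ∈ tasks (4 * (D.M * L : ℕ)) m := by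
    refine mem_product.2 ⟨Fintype.mem_piFinset.2 fun i => ?_, mem_product.2
      ⟨Fintype.mem_piFinset.2 fun i => (mem_product.1 (hp i)).1, mem_univ _⟩⟩
    obtain ⟨h1, h2⟩ := mem_filter.1 hj₀
    have h3 := D'.κ_box (ff D j₀ * t' i)
    rw [(key j₀ i).2 (congrFun h2 i), map_one, inv_one, mul_one] at h3
    have h4 := (hff j₀ h1).inv.mul h3
    rw [inv_mul_cancel_left] at h4
    exact mem_box.2 (h4.mono (by rw [hM']; linarith))
  have hcard := card_gd D L J hJL' (t', fun i => (p i).1, ε)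
  obtain ⟨j, hj, hj'⟩ := hr' _ hτ (by
    have h1 : 3 * Δ * N ≤ (gd D L J (t', fun i => (p i).1, ε)).card + m * β + m * m * β := by
      rw [hβ]
      refine le_trans ?_ hcard
      refine hy.trans (le_of_eq ?_)
      rw [← hfil]
    have h2 : m * β ≤ m * m * β := by
      rcases Nat.eq_zero_or_pos m with h | h
      · simp [h]
      · exact Nat.mul_le_mul_right _ (Nat.le_mul_of_pos_left _ h)
    have h3 : Δ ≤ N * Δ := Nat.le_mul_of_pos_left _ hN1
    have h4 : 3 * Δ * N = 3 * (N * Δ) := by ring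
    rw [← hβ, ← hΔ]
    omega)
  obtain ⟨hj1, hj2, hj3, -⟩ := mem_filter.1 hj
  refine ⟨ff D j, mem_image_of_mem _ hj1, fun i => ?_⟩
  have h1 : D'.κ (ff D j * t i) = y i * D'.κ (t i) :=
    mul_inv_eq_iff_eq_mul.1 ((key j i).1 (hj2 i))
  have h2 : ff D j * t i = ff D j * t' i * dil D'.M (y i * D'.κ (t i)) := by
    rw [ht']; beta_reduce; group
  rw [hv' i _ h1, h2, D'.per _ (hv i), ← hp' i]
  unfold vnew cont
  rw [if_neg (hj3 i), rho, hj2 i, map_one, inv_one, mul_one]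
  exact hj' i

open Classical in
/-- the first level -/
noncomputable def base : Level where
  M := 1
  hM := le_rfl
  κ := id
  P := {fun _ : H => true, fun _ : H => false}
  κ_mul g h := by ext <;> simp
  κ_box g := by refine ⟨?_, ?_, ?_⟩ <;> simp
  per v hv g h := by
    rcases mem_insert.1 hv with rfl | hv
    · rfl
    · rw [mem_singleton.1 hv]
  line g₀ ε := ⟨fun _ => ε, by cases ε <;> simp, fun _ _ => rfl⟩

theorem adm_closed (D : Level) : IsClosed D.Adm := by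
  have : D.Adm = ⋂ x, ⋃ v ∈ D.P, ⋂ g, ⋂ (_ : D.κ g = x), {ξ : H → Bool | ξ g = v g} := by
    ext ξ; simp [Level.Adm]
  rw [this]
  refine isClosed_iInter fun x => (D.P.finite_toSet.isClosed_biUnion fun v _ => ?_)
  exact isClosed_iInter fun g => isClosed_iInter fun _ =>
    isClosed_eq (continuous_apply g) continuous_const

theorem exists_colouring : ∃ ξ : H → Bool, ∀ m : ℕ, ∃ F : Finset H,
    ∀ (t : Fin m → H) (ε : Bool), ∃ f ∈ F, ∀ i, ξ (f * t i) = ε := by
  choose nx h1 h2 using step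
  let D : ℕ → Level := fun n => Nat.rec base (fun n D => nx D n) n
  obtain ⟨ξ, hξ⟩ := IsCompact.nonempty_iInter_of_sequence_nonempty_isCompact_isClosed
    (fun n => (D n).Adm) (fun n => h1 (D n) n)
    (fun n => ⟨k0 (D n) 1 true, fun x => ⟨_, k0_mem _ _ _, fun _ _ => rfl⟩⟩)
    (adm_closed _).isCompact (fun n => adm_closed _)
  refine ⟨ξ, fun m => ?_⟩
  obtain ⟨F, hF⟩ := h2 (D m) m
  exact ⟨F, hF ξ (Set.mem_iInter.1 hξ (m + 1))⟩

end Pool.Agent.H.MP_be5e04_al
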