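import Pool.Agent.H.MP_be5e04_al.Blocks
import Pool.Agent.H.MP_be5e04_al.Heis

namespace Pool.Agent.H.MP_be5e04_al
open Finset

def Cong (M : ℤ) (g g₀ : H) : Prop := M ∣ g.a - g₀.a ∧ M ∣ g.b - g₀.b

structure Level : Type where
  M : ℕ
  hM : 1 ≤ M
  κ : H → H
  P : Finset (H → Bool)
  κ_mul : ∀ g h, κ (g * dil M h) = κ g * h
  κ_box : ∀ g, InB (2 * M) (g * (dil M (κ g))⁻¹)
  per : ∀ v ∈ P, ∀ g h, v (g * dil M h) = v g
  line : ∀ g₀ ε, ∃ v ∈ P, ∀ g, Cong M g g₀ → v g = ε

def Level.Adm (D : Level) : Set (H → Bool) :=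
  {ξ | ∀ x, ∃ v ∈ D.P, ∀ g, D.κ g = x → ξ g = v g}

def Forced (D : Level) (L : ℕ) (g₀ x : H) : Prop :=
  ∃ g₁, D.κ g₁ = x ∧ Cong (D.M * L : ℕ) g₁ g₀

def rho (L : ℤ) (x : H) : H := x * (dil L (lab L x))⁻¹

noncomputable def k0 (D : Level) (g₀ : H) (ε : Bool) : H → Bool := (D.line g₀ ε).choose

theorem k0_mem (D : Level) (g₀ : H) (ε : Bool) : k0 D g₀ ε ∈ D.P := (D.line g₀ ε).choose_spec.1

theorem k0_eq (D : Level) (g₀ : H) (ε : Bool) (g : H) (h : Cong D.M g g₀) : k0 D g₀ ε g = ε :=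
  (D.line g₀ ε).choose_spec.2 g h

open Classical in
noncomputable def cont (D : Level) (L : ℕ) (r : H → H → Bool) (p : H × Bool) (x : H) :
    H → Bool := if Forced D L p.1 x then k0 D p.1 p.2 else r (rho L x)

noncomputable def vnew (D : Level) (L : ℕ) (r : H → H → Bool) (p : H × Bool) : H → Bool :=
  fun g => cont D L r p (D.κ g) g

theorem cont_mem (D : Level) (L : ℕ) (r : H → H → Bool) (hr : ∀ x, r x ∈ D.P) (p : H × Bool)
    (x : H) : cont D L r p x ∈ D.P := by
  unfold cont; split_ifs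
  · exact k0_mem _ _ _
  · exact hr _

theorem dil_cast (M L : ℕ) (h : H) : dil ((M * L : ℕ) : ℤ) h = dil M (dil L h) := by
  rw [dil_dil]; push_cast; rfl

theorem forced_mul (D : Level) (L : ℕ) (g₀ x h : H) (hf : Forced D L g₀ x) :
    Forced D L g₀ (x * dil L h) := by
  obtain ⟨g₁, h1, h2, h3⟩ := hf
  refine ⟨g₁ * dil D.M (dil L h), by rw [D.κ_mul, h1], ?_, ?_⟩
  · have : (g₁ * dil D.M (dil L h)).a - g₀.a = g₁.a - g₀.a + ((D.M * L : ℕ) : ℤ) * h.a := by
      simp; ring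
    rw [this]; exact dvd_add h2 (dvd_mul_right _ _)
  · have : (g₁ * dil D.M (dil L h)).b - g₀.b = g₁.b - g₀.b + ((D.M * L : ℕ) : ℤ) * h.b := by
      simp; ring
    rw [this]; exact dvd_add h3 (dvd_mul_right _ _)

theorem forced_mul_iff (D : Level) (L : ℕ) (g₀ x h : H) :
    Forced D L g₀ (x * dil L h) ↔ Forced D L g₀ x := by
  refine ⟨fun hf => ?_, forced_mul D L g₀ x h⟩
  have := forced_mul D L g₀ _ h⁻¹ hf
  rwa [mul_assoc, ← map_mul, mul_inv_cancel, map_one, mul_one] at this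

theorem rho_mul (L : ℤ) (hL : 0 < L) (x h : H) : rho L (x * dil L h) = rho L x := by
  unfold rho; rw [lab_mul L hL, map_mul]; group

theorem cont_mul (D : Level) (L : ℕ) (hL : 0 < L) (r : H → H → Bool) (p : H × Bool) (x h : H) :
    cont D L r p (x * dil L h) = cont D L r p x := by
  unfold cont
  rw [rho_mul L (by exact_mod_cast hL)]
  by_cases hf : Forced D L p.1 x
  · rw [if_pos hf, if_pos ((forced_mul_iff _ _ _ _ _).2 hf)]
  · rw [if_neg hf, if_neg (fun h' => hf ((forced_mul_iff _ _ _ _ _).1 h'))]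

open Classical in
noncomputable def next (D : Level) (L : ℕ) (hL : 2 ≤ L) (r : H → H → Bool)
    (hr : ∀ x, r x ∈ D.P) : Level where
  M := D.M * L
  hM := Nat.mul_pos D.hM (by omega)
  κ := fun g => lab L (D.κ g)
  P := (box (4 * (D.M * L : ℕ)) ×ˢ univ).image (vnew D L r)
  κ_mul g h := by
    rw [dil_cast, D.κ_mul, lab_mul _ (by exact_mod_cast (by omega : 0 < L))]
  κ_box g := by
    have h1 := D.κ_box g
    have h2 := (lab_box L (by exact_mod_cast (by omega : 0 < L)) (D.κ g)).dil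
      (L := D.M) (by positivity)
    have h3 := h1.mul h2
    have e : g * (dil D.M (D.κ g))⁻¹ * dil D.M (D.κ g * (dil L (lab L (D.κ g)))⁻¹) =
        g * (dil ((D.M * L : ℕ) : ℤ) (lab L (D.κ g)))⁻¹ := by
      rw [dil_cast, map_mul, map_inv]; group
    rw [e] at h3
    refine h3.mono ?_
    have : (2 : ℤ) ≤ L := by exact_mod_cast hL
    have : (0 : ℤ) ≤ D.M := by positivity
    push_cast; nlinarith
  per v hv g h := by
    obtain ⟨p, -, rfl⟩ := mem_image.1 hv
    unfold vnew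
    rw [dil_cast, D.κ_mul, cont_mul _ _ (by omega), D.per _ (cont_mem D L r hr p _)]
  line g₀ ε := by
    have hM : (0 : ℤ) < (D.M * L : ℕ) := by
      exact_mod_cast Nat.mul_pos D.hM (by omega)
    set g₁ := rho (D.M * L : ℕ) g₀ with hg₁
    have hc : ∀ g, Cong (D.M * L : ℕ) g g₀ → Cong (D.M * L : ℕ) g g₁ := by
      intro g hg
      constructor
      · have : g.a - g₁.a = g.a - g₀.a + ((D.M * L : ℕ) : ℤ) * (lab (D.M * L : ℕ) g₀).a := by
          simp [hg₁, rho]; ring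
        rw [this]; exact dvd_add hg.1 (dvd_mul_right _ _)
      · have : g.b - g₁.b = g.b - g₀.b + ((D.M * L : ℕ) : ℤ) * (lab (D.M * L : ℕ) g₀).b := by
          simp [hg₁, rho]; ring
        rw [this]; exact dvd_add hg.2 (dvd_mul_right _ _)
    refine ⟨vnew D L r (g₁, ε), mem_image.2 ⟨(g₁, ε), mem_product.2 ⟨mem_box.2
      ((lab_box _ hM g₀).mono (by linarith)), mem_univ _⟩, rfl⟩, fun g hg => ?_⟩
    have hg' := hc g hg
    unfold vnew cont
    rw [if_pos ⟨g, rfl, hg'⟩]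
    have hd : (D.M : ℤ) ∣ (D.M * L : ℕ) := by push_cast; exact dvd_mul_right _ _
    exact k0_eq D g₁ ε g ⟨hd.trans hg'.1, hd.trans hg'.2⟩

theorem next_adm (D : Level) (L : ℕ) (hL : 2 ≤ L) (r : H → H → Bool) (hr : ∀ x, r x ∈ D.P) :
    (next D L hL r hr).Adm ⊆ D.Adm := by
  classical
  intro ξ hξ x
  obtain ⟨v, hv, h⟩ := hξ (lab L x)
  obtain ⟨p, -, rfl⟩ := mem_image.1 hv
  refine ⟨cont D L r p x, cont_mem D L r hr p x, fun g hg => ?_⟩
  rw [h g (by show lab L (D.κ g) = _; rw [hg])]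
  unfold vnew; rw [hg]

theorem same_tile (D : Level) {g g' : H} (h : D.κ g = D.κ g') : InB (6 * D.M) (g * g'⁻¹) := by
  have h1 := (D.κ_box g).mul (D.κ_box g').inv
  rw [h] at h1
  have e : g * (dil D.M (D.κ g'))⁻¹ * (g' * (dil D.M (D.κ g'))⁻¹)⁻¹ = g * g'⁻¹ := by group
  rw [e] at h1
  exact h1.mono (by linarith)

/-- the translating elements -/
def ff (D : Level) (j : ℕ) : H := ⟨j, (6 * D.M + 1) * j, 0⟩

open Classical in
theorem count_forced (D : Level) (L J : ℕ) (hJ : J ≤ D.M * L) (g₀ t : H) :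
    ((range J).filter fun j => Forced D L g₀ (D.κ (ff D j * t))).card ≤ (box (6 * D.M)).card := by
  apply card_le_card_of_forall_subsingleton
    (fun (j : ℕ) (w : H) => ((D.M * L : ℕ) : ℤ) ∣ w.a + j + t.a - g₀.a)
  · intro j hj
    obtain ⟨g₁, h1, h2, -⟩ := (mem_filter.1 hj).2
    refine ⟨g₁ * (ff D j * t)⁻¹, mem_box.2 (same_tile D h1), ?_⟩
    convert h2 using 1
    simp [ff]; ring
  · intro w _ j hj j' hj'
    simp only [coe_filter, mem_range, Set.mem_setOf_eq] at hj hj'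
    have h1 : ((D.M * L : ℕ) : ℤ) ∣ (j : ℤ) - j' := by
      have h3 := dvd_sub hj.2 hj'.2
      rwa [show w.a + j + t.a - g₀.a - (w.a + j' + t.a - g₀.a) = (j : ℤ) - j' by ring] at h3
    have h2 : |(j : ℤ) - j'| < (D.M * L : ℕ) := by
      have := mem_range.1 (mem_filter.1 hj.1).1
      have := mem_range.1 (mem_filter.1 hj'.1).1
      rw [abs_lt]; constructor <;> omega
    have := Int.eq_zero_of_abs_lt_dvd h1 h2
    omega

open Classical in
theorem count_switch (D : Level) (J : ℕ) (t t' : H) (ht : ¬ (t.a = t'.a ∧ t.b = t'.b)) :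
    ((range J).filter fun j => D.κ (ff D j * t) = D.κ (ff D j * t')).card ≤
      (box (6 * D.M)).card := by
  apply card_le_card_of_forall_subsingleton
    (fun (j : ℕ) (w : H) => ff D j * t * (ff D j * t')⁻¹ = w)
  · intro j hj
    exact ⟨_, mem_box.2 (same_tile D (mem_filter.1 hj).2), rfl⟩
  · intro w hw j hj j' hj'
    simp only [coe_filter, mem_range, Set.mem_setOf_eq] at hj hj'
    have hw' := mem_box.1 hw
    have ha := congrArg H.a hj.2
    have hb := congrArg H.b hj.2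
    have hc := congrArg H.c (hj.2.trans hj'.2.symm)
    simp only [ff, H.mul_a, H.mul_b, H.mul_c, H.inv_a, H.inv_b, H.inv_c] at ha hb hc
    have h1 : ((j : ℤ) - j') * ((t.b - t'.b) - (6 * D.M + 1) * (t.a - t'.a)) = 0 := by
      linear_combination hc
    rcases mul_eq_zero.1 h1 with h | h
    · omega
    · exfalso
      have hb' : |t.b - t'.b| ≤ 6 * D.M := by
        have := hw'.2.1
        rw [← hb] at this
        convert this using 2; ring
      have hd : (6 * D.M + 1 : ℤ) ∣ t.b - t'.b := ⟨t.a - t'.a, by linarith⟩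
      have h0 := Int.eq_zero_of_abs_lt_dvd hd (by linarith)
      rw [h0] at h
      have h5 : (6 * D.M + 1 : ℤ) * (t.a - t'.a) = 0 := by linarith
      rcases mul_eq_zero.1 h5 with h6 | h6
      · omega
      · exact ht ⟨by linarith, by linarith⟩

open Classical in
theorem count_conf (D : Level) (J : ℕ) (t y : H) :
    ((range J).filter fun j => D.κ (ff D j * t) = D.κ y).card ≤ (box (6 * D.M)).card := by
  apply card_le_card_of_forall_subsingleton
    (fun (j : ℕ) (w : H) => ff D j * t * y⁻¹ = w)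
  · intro j hj
    exact ⟨_, mem_box.2 (same_tile D (mem_filter.1 hj).2), rfl⟩
  · intro w hw j hj j' hj'
    simp only [coe_filter, mem_range, Set.mem_setOf_eq] at hj hj'
    have ha := congrArg H.a (hj.2.trans hj'.2.symm)
    simp only [ff, H.mul_a, H.inv_a] at ha
    omega

end Pool.Agent.H.MP_be5e04_al
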